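import Pool.Agent.H135R2.VS.Conn

set_option autoImplicit false
set_option linter.unusedSectionVars false

/-! # Linked pairs in dimension `d + 1` are globally linked in dimension `d`: the argument -/

namespace Pool.Agent.Helper47K9.LK

open Set Pool.Agent.H135R2.VS

variable {V : Type*} {d : ℕ} [Fintype V] [DecidableEq V]

/-- The configuration in dimension `d + 1` with last coordinate `z`. -/
def ext (p : Conf d V) (z : V → ℝ) : Conf (d + 1) V := fun i => Fin.snoc (p i) (z i)

theorem ext_castSucc (p : Conf d V) (z : V → ℝ) (i : V) (a : Fin d) :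
    ext p z i a.castSucc = p i a := by
  simp [ext]

theorem ext_last (p : Conf d V) (z : V → ℝ) (i : V) : ext p z i (Fin.last d) = z i := by
  simp [ext]

/-- The index map. -/
def ix (V : Type*) (d : ℕ) (c : V × Fin (d + 1)) : (V × Fin d) ⊕ V :=
  Fin.lastCases (motive := fun _ => (V × Fin d) ⊕ V) (Sum.inr c.1) (fun a => Sum.inl (c.1, a)) c.2

theorem ix_castSucc (i : V) (a : Fin d) : ix V d (i, a.castSucc) = Sum.inl (i, a) := by
  simp [ix]

theorem ix_last (i : V) : ix V d (i, Fin.last d) = Sum.inr i := by
  simp [ix]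

theorem ix_inj : Function.Injective (ix V d) := by
  rintro ⟨i, a⟩ ⟨j, b⟩ h
  induction a using Fin.lastCases with
  | last =>
    induction b using Fin.lastCases with
    | last => rw [ix_last, ix_last] at h; rw [Sum.inr.inj h]
    | cast b => rw [ix_last, ix_castSucc] at h; exact absurd h (by simp)
  | cast a =>
    induction b using Fin.lastCases with
    | last => rw [ix_last, ix_castSucc] at h; exact absurd h (by simp)
    | cast b =>
      rw [ix_castSucc, ix_castSucc] at h
      have := Sum.inl.inj h
      rw [Prod.mk.injEq] at this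
      rw [this.1, this.2]

theorem gen_ext {p : Conf d V} (hp : Gen p) {z : V → ℝ}
    (hz : AlgebraicIndependent (adj ⊥ (range (unc p))) z) : Gen (ext p z) := by
  have h1 : AlgebraicIndependent (⊥ : SF) (Sum.elim (unc p) z) :=
    algInd_sum (bot_of_rat hp) hz
  have h2 := (rat_of_sf h1).comp (ix V d) ix_inj
  have h3 : (Sum.elim (unc p) z ∘ ix V d) = fun i : V × Fin (d + 1) => ext p z i.1 i.2 := by
    funext ⟨i, a⟩
    induction a using Fin.lastCases with
    | last => simp [ix_last, ext_last]
    | cast a => simp [ix_castSucc, ext_castSucc, unc]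
  rw [h3] at h2
  exact h2

/-- The form of the pair `u v`. -/
def pf (u v : V) (y z : V → ℝ) : ℝ := (y u - y v) * (z u - z v)

/-- The row of the pair `u v` is a combination of the rows of the edges. -/
def Dep (G : SimpleGraph V) {e : ℕ} (p : Conf e V) (u v : V) : Prop :=
  ∃ c : V → V → ℝ, (∀ i j, ¬ G.Adj i j → c i j = 0) ∧
    ∀ m : Conf e V, fl p m u v = ∑ i, ∑ j, c i j * fl p m i j

theorem fl_single {e : ℕ} (p : Conf e V) (a : Fin e) (z : V → ℝ) (i j : V) :
    fl p (fun i => z i • Pi.single a 1) i j = (p i a - p j a) * (z i - z j) := by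
  rw [fl_dot, ← sub_smul, dotProduct_smul, dotProduct_single, smul_eq_mul]
  simp only [Pi.sub_apply]
  ring

theorem main (G : SimpleGraph V) (u v : V)
    (hL : ∀ p : Conf (d + 1) V, Gen p → Dep G p u v) {p q : Conf d V} (hp : Gen p)
    (hq : ∀ i j, G.Adj i j → fl q q i j = fl p p i j) : fl q q u v = fl p p u v := by
  classical
  -- the weights
  have hw : ∀ z : V → ℝ, AlgebraicIndependent (adj ⊥ (range (unc p))) z →
      ∃ c : V → V → ℝ, (∀ i j, ¬ G.Adj i j → c i j = 0) ∧
        (∀ a ζ, en c (fun i => p i a) ζ = pf u v (fun i => p i a) ζ) ∧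
        ∀ ζ, en c z ζ = pf u v z ζ := by
    intro z hz
    obtain ⟨c, hc, hc'⟩ := hL (ext p z) (gen_ext hp hz)
    refine ⟨c, hc, fun a ζ => ?_, fun ζ => ?_⟩
    · have h1 := hc' (fun i => ζ i • Pi.single a.castSucc 1)
      simp only [fl_single, ext_castSucc] at h1
      exact h1.symm
    · have h1 := hc' (fun i => ζ i • Pi.single (Fin.last d) 1)
      simp only [fl_single, ext_last] at h1
      exact h1.symm
  have hcount : Countable (adj ⊥ (range (unc p))) := countable_adj (countable_range _)
  have hdense : Dense {z : V → ℝ | AlgebraicIndependent (adj ⊥ (range (unc p))) z} :=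
    dense_algInd
  obtain ⟨z₀, hz₀⟩ := hdense.nonempty
  obtain ⟨c₀, hc₀, hc₀p, -⟩ := hw z₀ hz₀
  -- the weights act in the same way on `q`
  have key : ∀ (a : Fin d) (z : V → ℝ), AlgebraicIndependent (adj ⊥ (range (unc p))) z →
      en c₀ (fun i => q i a) z = pf u v (fun i => q i a) z := by
    intro a z hz
    obtain ⟨c, hc, hcp, hcz⟩ := hw z hz
    have hstr : Str G p (c - c₀) := by
      refine ⟨fun i j hij => ?_, fun b ζ => ?_⟩
      · rw [Pi.sub_apply, Pi.sub_apply, hc i j hij, hc₀ i j hij, sub_zero]
      · have h1 := en_add_w (c - c₀) c₀ (fun i => p i b) ζ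
        rw [sub_add_cancel, hcp, hc₀p] at h1
        linarith
    have h2 := (hstr.transfer hp hq).2 a z
    have h3 := en_add_w (c - c₀) c₀ (fun i => q i a) z
    rw [sub_add_cancel, h2, zero_add] at h3
    rw [← h3, en_symm, hcz]
    unfold pf
    ring
  have key2 : ∀ (a : Fin d) (z : V → ℝ), en c₀ (fun i => q i a) z = pf u v (fun i => q i a) z := by
    intro a
    have h1 : Continuous fun z : V → ℝ => en c₀ (fun i => q i a) z := by
      unfold en
      fun_prop
    have h2 : Continuous fun z : V → ℝ => pf u v (fun i => q i a) z := by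
      unfold pf
      fun_prop
    have := Continuous.ext_on hdense h1 h2 (fun z hz => key a z hz)
    exact fun z => congrFun this z
  have hsum : ∀ x : Conf d V, (∀ (a : Fin d) (z : V → ℝ),
      en c₀ (fun i => x i a) z = pf u v (fun i => x i a) z) →
      fl x x u v = ∑ i, ∑ j, c₀ i j * fl x x i j := by
    intro x hx
    rw [sum_fl]
    simp only [hx]
    rfl
  rw [hsum q key2, hsum p hc₀p]
  refine Finset.sum_congr rfl fun i _ => Finset.sum_congr rfl fun j _ => ?_
  by_cases hij : G.Adj i j
  · rw [hq i j hij]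
  · rw [hc₀ i j hij, zero_mul, zero_mul]

end Pool.Agent.Helper47K9.LK
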